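import Pool.Agent.EGF.StmtsV
import Pool.Agent.Helper23_EGF.FIN2

/-!
Squad EGF, row FNP (helper42): the theorem (power saving for every `p ≥ 4`); adapted from
`Pool/Agent/Helper23_EGF/FIN2.lean`.
-/

set_option autoImplicit false

open Finset Filter

namespace Pool.Agent.EGF.H42

open Pool.Agent.EGF.H23

/-- **FNP** -/
theorem fnp (mapS : MapStmt) (red : Rd3Stmt) : FnpStmt := by
  obtain ⟨A, hA0⟩ := mapS
  obtain ⟨e, hee⟩ : ∃ e : ℝ, e = 1 / (2 * (A : ℝ) + 3) := ⟨_, rfl⟩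
  have hden : (0 : ℝ) < 2 * (A : ℝ) + 3 := by positivity
  have he : 0 < e := by rw [hee]; positivity
  have hN : e * (A : ℕ) < 1 := by
    rw [hee, one_div, inv_mul_eq_div, div_lt_one hden]
    have : (0 : ℝ) ≤ A := Nat.cast_nonneg A
    linarith
  have he2 : 2 * e < 1 := by
    rw [hee, ← mul_div_assoc, mul_one, div_lt_one hden]
    have : (0 : ℝ) ≤ A := Nat.cast_nonneg A
    linarith
  refine ⟨e, he, fun p hp => ?_⟩
  have hcast : Tendsto (fun k : ℕ => (k : ℝ)) atTop atTop := tendsto_natCast_atTop_atTop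
  have hev := ((pow_small A e he hN).and ((log_small e he).and ((const_small p e he2).and
    (eventually_ge_atTop (1 : ℝ)))))
  obtain ⟨k₀, hk₀⟩ := eventually_atTop.mp (hcast.eventually hev)
  refine ⟨k₀, fun k hk n hn => ?_⟩
  obtain ⟨hA, hB, hD, hE⟩ := hk₀ k hk
  have hk0 : (0 : ℝ) < k := by linarith
  have hl2 : Real.log 2 ≤ 1 := by
    have h1 := Real.log_two_lt_d9
    linarith
  have hxe1 : 1 ≤ (k : ℝ) ^ e := Real.one_le_rpow hE he.le
  have hxe0 : 0 < (k : ℝ) ^ e := by linarith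
  have hlog2k : Real.log (2 * k) ≤ 1 + (k : ℝ) ^ e := by
    rw [Real.log_mul (by norm_num) hk0.ne']
    linarith
  have hmain : (k : ℝ) ^ (1 - e) = k / (k : ℝ) ^ e := by
    rw [Real.rpow_sub hk0, Real.rpow_one]
  have hmain2 : (k : ℝ) ^ (1 - e) = (k : ℝ) ^ (1 - 2 * e) * (k : ℝ) ^ e := by
    rw [← Real.rpow_add hk0]
    congr 1
    ring
  have hpos : (0 : ℝ) < (k : ℝ) ^ (1 - e) := Real.rpow_pos_of_pos hk0 _
  -- the basic inequality
  have hbase : ((p : ℝ) + 1) * Real.log (2 * k) ≤ (k : ℝ) ^ (1 - e) / 2 := by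
    have h2 : (0 : ℝ) < (p : ℝ) + 1 := by positivity
    have h3 : ((p : ℝ) + 1) * Real.log (2 * k) ≤ ((p : ℝ) + 1) * (2 * (k : ℝ) ^ e) :=
      mul_le_mul_of_nonneg_left (by linarith) h2.le
    have h4 : 4 * ((p : ℝ) + 1) * (k : ℝ) ^ e ≤ (k : ℝ) ^ (1 - 2 * e) * (k : ℝ) ^ e :=
      mul_le_mul_of_nonneg_right hD hxe0.le
    rw [← hmain2] at h4
    linarith
  have hlog0 : Real.log 2 ≤ Real.log (2 * k) := Real.log_le_log (by norm_num) (by linarith)
  have hl2p : 0 < Real.log 2 := Real.log_pos (by norm_num)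
  by_contra hcon
  unfold Forces at hcon
  push Not at hcon
  obtain ⟨c, hsym, hc⟩ := hcon
  have hc' : ∀ S : Finset (Fin n), S.card = p → p - 1 ≤ (pal c S).card := by
    intro S hS
    have h1 := hc S hS
    omega
  have h2k : (0 : ℝ) < 2 * k := by positivity
  -- the number of vertices is large
  have hbig : (2 : ℝ) * (2 * k) ^ p ≤ n := by
    refine le_trans ?_ hn
    have h1 : (2 : ℝ) * (2 * k) ^ p = Real.exp (Real.log 2 + p * Real.log (2 * k)) := by
      rw [Real.exp_add, Real.exp_log (by norm_num), mul_comm (p : ℝ), Real.exp_mul,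
        Real.exp_log h2k, Real.rpow_natCast]
    rw [h1]
    apply Real.exp_le_exp.mpr
    nlinarith
  have hcardV : 2 * (2 * k) ^ p ≤ Fintype.card (Fin n) := by
    rw [Fintype.card_fin]
    exact_mod_cast hbig
  obtain ⟨U, hU, hUq⟩ := red (Fin n) k c p hsym (by omega) hc' hcardV
  rw [Fintype.card_fin] at hU
  have hn0 : (0 : ℝ) < n := lt_of_lt_of_le (Real.exp_pos _) hn
  have hUR : (n : ℝ) ≤ (2 * k) ^ p * U.card := by exact_mod_cast hU
  have hU0 : (0 : ℝ) < U.card := by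
    by_contra hneg
    have h1 : (U.card : ℝ) = 0 := le_antisymm (not_lt.mp hneg) (Nat.cast_nonneg _)
    rw [h1, mul_zero] at hUR
    linarith
  have hlogn : (k : ℝ) ^ (1 - e) ≤ Real.log n := by
    rw [Real.le_log_iff_exp_le hn0]
    exact hn
  have hlogU : Real.log n ≤ p * Real.log (2 * k) + Real.log U.card := by
    have h1 := Real.log_le_log hn0 hUR
    rwa [Real.log_mul (by positivity) hU0.ne', Real.log_pow] at h1
  have hxk : (1 / (2 * (k : ℝ) ^ e)) * k = (k : ℝ) ^ (1 - e) / 2 := by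
    rw [hmain]
    field_simp
  refine hA0 (1 / (2 * (k : ℝ) ^ e)) ⌈2048 * (k : ℝ) ^ e⌉₊ (by positivity) ?_ ?_ k hA ?_ (Fin n)
    c U hsym (pal_four hsym fun S hS h4 => ?_) ?_
  · rw [div_le_one (by positivity)]
    linarith
  · have h1 : 1024 / (1 / (2 * (k : ℝ) ^ e)) = 2048 * (k : ℝ) ^ e := by
      field_simp
      norm_num
    rw [h1]
    exact Nat.le_ceil _
  · have h2 := Nat.le_ceil (2048 * (k : ℝ) ^ e)
    linarith
  · exact hUq 4 (by norm_num) (by omega) S hS h4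
  · rw [hxk]
    have h1 : (p : ℝ) * Real.log (2 * k) ≤ ((p : ℝ) + 1) * Real.log (2 * k) := by
      nlinarith
    linarith

end Pool.Agent.EGF.H42
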